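import Mathlib

set_option autoImplicit false
set_option linter.unusedSectionVars false

/-!
# There is no `(n,m,k,1)`-SEDF with `m ≥ 3`, `k ≥ 2` in any finite group

The proof. Fix a family `A` and let `B` be the union of its sets. For `λ = 1` each pair
`(A i, B \ A i)` is a near-factorization of `G`: the products `x * y⁻¹` are the non-identity
elements, each once. By a commutation argument (a one-sided inverse of a matrix is two-sided) the
products `y⁻¹ * x` are the non-identity elements, each once, as well. Let `x ≠ x'` be in `A i`, and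
`g = x'⁻¹ * x`. For `j ≠ i` write `g = y⁻¹ * z` with `z ∈ A j`, `y ∈ B \ A j`. If `y ∉ A i` then
`x * z⁻¹ = x' * y⁻¹`, a contradiction; so `y ∈ A i`. The same for `g⁻¹` gives
`g = w⁻¹ * u`, `u ∈ A i`, `w ∈ A j`, and this for each `j ≠ i`. Hence `m ≤ 2`.
-/

namespace Pool.Agent.Results.MP_2fa8e1_co.NoSEDF

open Matrix

/-- `IsSEDF m k lam A`: the family `A` of `m` pairwise disjoint `k`-element subsets of the finite
group `G` is an `(n,m,k,lam)` strong external difference family, `n` being the order of `G`: for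
each `i` each `g ≠ 1` is `x * y⁻¹` for exactly `lam` pairs `(x,y)` with `x ∈ A i` and `y` in the
union of the sets `A j`, `j ≠ i`. -/
def IsSEDF {G : Type*} [Group G] (m k lam : ℕ) (A : Fin m → Finset G) : Prop :=
  (∀ i, (A i).card = k) ∧ (∀ i j, i ≠ j → Disjoint (A i) (A j)) ∧
    ∀ i, ∀ g : G, g ≠ 1 →
      {p : G × G | p.1 ∈ A i ∧ (∃ j, j ≠ i ∧ p.2 ∈ A j) ∧ p.1 * p.2⁻¹ = g}.ncard = lam

section near

variable {G : Type*} [Group G] [Fintype G] [DecidableEq G]

/-- The group matrix of a function. -/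
def gm (f : G → ℚ) : Matrix G G ℚ := fun a b => f (a⁻¹ * b)

/-- The all-ones matrix. -/
def J : Matrix G G ℚ := fun _ _ => 1

theorem gm_mul_J (f : G → ℚ) : gm f * J = (∑ g, f g) • (J : Matrix G G ℚ) := by
  ext a c
  simp only [Matrix.mul_apply, gm, J, mul_one, Matrix.smul_apply, smul_eq_mul]
  exact Fintype.sum_equiv (Equiv.mulLeft a⁻¹) _ _ (fun x => rfl)

theorem J_mul_gm (f : G → ℚ) : J * gm f = (∑ g, f g) • (J : Matrix G G ℚ) := by
  ext a c
  simp only [Matrix.mul_apply, gm, J, one_mul, mul_one, Matrix.smul_apply, smul_eq_mul]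
  exact Fintype.sum_equiv ((Equiv.inv G).trans (Equiv.mulRight c)) _ _ (fun x => rfl)

theorem J_mul_J : (J : Matrix G G ℚ) * J = (Fintype.card G : ℚ) • (J : Matrix G G ℚ) := by
  ext a c
  simp [Matrix.mul_apply, J]

/-- Near-factorizations commute. -/
theorem near_comm (f g : G → ℚ) (hn : 1 < Fintype.card G) (h : gm f * gm g = J - 1) :
    gm g * gm f = J - 1 := by
  have hn' : (1 : ℚ) < Fintype.card G := by exact_mod_cast hn
  set n : ℚ := (Fintype.card G : ℚ) with hndef
  set a : ℚ := 1 / (n - 1) with ha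
  have han : a * n - 1 - a = 0 := by
    have hne : n - 1 ≠ 0 := by linarith
    rw [ha]
    field_simp
    ring
  have hinv : (J - 1 : Matrix G G ℚ) * (a • J - 1) = 1 := by
    rw [sub_mul, mul_sub, mul_sub, mul_smul_comm, J_mul_J, mul_one, one_mul, one_mul,
      smul_smul]
    have : (a * (Fintype.card G : ℚ)) • (J : Matrix G G ℚ) - J - (a • J - 1) =
        (a * n - 1 - a) • (J : Matrix G G ℚ) + 1 := by
      rw [sub_smul, sub_smul, one_smul]; abel
    rw [this, han, zero_smul, zero_add]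
  have hinv' : (a • J - 1 : Matrix G G ℚ) * (J - 1) = 1 := mul_eq_one_comm.mp hinv
  have hcomm : gm f * (a • J - 1) = (a • J - 1) * gm f := by
    rw [mul_sub, sub_mul, mul_smul_comm, smul_mul_assoc, gm_mul_J, J_mul_gm, mul_one, one_mul]
  have h1 : gm f * (gm g * (a • J - 1)) = 1 := by
    rw [← mul_assoc, h, hinv]
  have h2 : gm g * (a • J - 1) * gm f = 1 := mul_eq_one_comm.mp h1
  have h3 : gm g * gm f * (a • J - 1) = 1 := by
    rw [mul_assoc, hcomm, ← mul_assoc]; exact h2
  calc gm g * gm f = gm g * gm f * ((a • J - 1) * (J - 1)) := by rw [hinv', mul_one]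
    _ = (gm g * gm f * (a • J - 1)) * (J - 1) := by rw [← mul_assoc]
    _ = J - 1 := by rw [h3, one_mul]

/-- If each `g ≠ 1` is `x * y⁻¹` with `x ∈ S`, `y ∈ T` exactly once and `S`, `T` are disjoint, then
each `g ≠ 1` is `y⁻¹ * x` exactly once. -/
theorem near_factor (S T : Finset G) (hn : 1 < Fintype.card G) (hST : Disjoint S T)
    (h : ∀ g : G, g ≠ 1 → ((S ×ˢ T).filter (fun p => p.1 * p.2⁻¹ = g)).card = 1) :
    ∀ g : G, g ≠ 1 → ((S ×ˢ T).filter (fun p => p.2⁻¹ * p.1 = g)).card = 1 := by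
  set f : G → ℚ := fun x => if x ∈ S then 1 else 0 with hf
  set e : G → ℚ := fun x => if x⁻¹ ∈ T then 1 else 0 with he
  have key1 : gm f * gm e = J - 1 := by
    ext a c
    have h1 : (gm f * gm e) a c =
        (((S ×ˢ T).filter (fun p => p.1 * p.2⁻¹ = a⁻¹ * c)).card : ℚ) := by
      simp only [Matrix.mul_apply, gm, hf, he]
      rw [Finset.card_filter, Finset.sum_product]
      push_cast
      rw [← Finset.sum_filter_add_sum_filter_not Finset.univ (fun b => a⁻¹ * b ∈ S)]
      rw [Finset.sum_eq_zero (s := Finset.univ.filter (fun b => ¬ (a⁻¹ * b ∈ S)))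
        (by intro x hx; simp only [Finset.mem_filter] at hx; simp [hx.2]), add_zero]
      apply Finset.sum_bij (fun b _ => a⁻¹ * b)
      · intro b hb; simpa using hb
      · intro b _ b' _ hbb; exact mul_left_cancel hbb
      · intro x hx; exact ⟨a * x, by simpa using hx, by simp⟩
      · intro b hb
        simp only [Finset.mem_filter, Finset.mem_univ, true_and] at hb
        rw [if_pos hb, one_mul]
        have : ∀ y : G, (a⁻¹ * b * y⁻¹ = a⁻¹ * c) ↔ y = (b⁻¹ * c)⁻¹ := by
          intro y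
          constructor
          · intro hy
            have : b * y⁻¹ = c := by
              rw [mul_assoc] at hy; exact mul_left_cancel hy
            rw [← this]; group
          · rintro rfl; group
        simp only [this]
        by_cases hmem : (b⁻¹ * c)⁻¹ ∈ T
        · simp
        · simp
    rw [h1]
    by_cases hac : a = c
    · subst hac
      simp only [inv_mul_cancel, Matrix.sub_apply, J, Matrix.one_apply_eq, sub_self]
      rw [Nat.cast_eq_zero, Finset.card_eq_zero, Finset.filter_eq_empty_iff]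
      rintro ⟨x, y⟩ hp hxy
      rw [Finset.mem_product] at hp
      simp only at hxy hp
      have : x = y := by rwa [mul_inv_eq_one] at hxy
      subst this
      exact (Finset.disjoint_left.mp hST) hp.1 hp.2
    · have hne : a⁻¹ * c ≠ 1 := by
        intro hh; apply hac; rwa [inv_mul_eq_one] at hh
      rw [h _ hne]
      simp [J, Matrix.one_apply_ne hac]
  have key2 := near_comm f e hn key1
  intro g hg
  have h1 : (gm e * gm f) 1 g =
      (((S ×ˢ T).filter (fun p => p.2⁻¹ * p.1 = g)).card : ℚ) := by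
    simp only [Matrix.mul_apply, gm, hf, he]
    rw [Finset.card_filter, Finset.sum_product_right]
    push_cast
    rw [← Finset.sum_filter_add_sum_filter_not Finset.univ (fun b : G => b⁻¹ ∈ T)]
    rw [Finset.sum_eq_zero (s := Finset.univ.filter (fun b : G => ¬ (b⁻¹ ∈ T)))
      (by intro x hx; simp only [Finset.mem_filter] at hx; simp [hx.2]), add_zero]
    apply Finset.sum_bij (fun b _ => b⁻¹)
    · intro b hb; simpa using hb
    · intro b _ b' _ hbb; exact inv_injective hbb
    · intro x hx; exact ⟨x⁻¹, by simpa using hx, by simp⟩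
    · intro b hb
      simp only [Finset.mem_filter, Finset.mem_univ, true_and] at hb
      have hb' : (1⁻¹ * b)⁻¹ ∈ T := by simpa using hb
      rw [if_pos hb', one_mul]
      have : ∀ x : G, (b⁻¹⁻¹ * x = g) ↔ x = b⁻¹ * g := by
        intro x
        rw [inv_inv]
        constructor
        · rintro rfl; group
        · rintro rfl; group
      simp only [this]
      by_cases hmem : b⁻¹ * g ∈ S
      · simp [hmem]
      · simp [hmem]
  have h2 : (gm e * gm f) 1 g = 1 := by
    rw [key2]
    simp [J, Matrix.one_apply_ne (Ne.symm hg)]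
  have h3 : (((S ×ˢ T).filter (fun p => p.2⁻¹ * p.1 = g)).card : ℚ) = 1 := by rw [← h1, h2]
  exact_mod_cast h3

end near

/-- No finite group, abelian or not, contains an `(n,m,k,1)`-SEDF with `m ≥ 3` and `k ≥ 2`. -/
theorem result (G : Type*) [Group G] [Finite G] (m k : ℕ) (hm : 3 ≤ m) (hk : 2 ≤ k)
    (A : Fin m → Finset G) : ¬ IsSEDF m k 1 A := by
  classical
  have : Fintype G := Fintype.ofFinite G
  rintro ⟨hcard, hdis, hS⟩
  -- the union of the other sets
  set T : Fin m → Finset G := fun i => (Finset.univ.filter (fun j => j ≠ i)).biUnion A with hT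
  have hTmem : ∀ i y, y ∈ T i ↔ ∃ j, j ≠ i ∧ y ∈ A j := by
    intro i y; simp [hT]
  have hdT : ∀ i, Disjoint (A i) (T i) := by
    intro i
    rw [Finset.disjoint_left]
    intro x hx hxT
    obtain ⟨j, hj, hxj⟩ := (hTmem i x).mp hxT
    exact (Finset.disjoint_left.mp (hdis i j (Ne.symm hj))) hx hxj
  have hn : 1 < Fintype.card G := by
    have i0 : Fin m := ⟨0, by omega⟩
    have := Finset.card_le_univ (A i0)
    have := hcard i0
    omega
  have h1 : ∀ i, ∀ g : G, g ≠ 1 →
      ((A i ×ˢ T i).filter (fun p => p.1 * p.2⁻¹ = g)).card = 1 := by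
    intro i g hg
    have := hS i g hg
    rw [← this, ← Set.ncard_coe_finset]
    congr 1
    ext ⟨x, y⟩
    simp only [Finset.coe_filter, Finset.mem_product, hTmem, Set.mem_ofPred_eq]
    tauto
  have h2 : ∀ i, ∀ g : G, g ≠ 1 →
      ((A i ×ˢ T i).filter (fun p => p.2⁻¹ * p.1 = g)).card = 1 :=
    fun i => near_factor (A i) (T i) hn (hdT i) (h1 i)
  -- the key step
  have key : ∀ i j, j ≠ i → ∀ x ∈ A i, ∀ x' ∈ A i, x ≠ x' →
      ∃ y ∈ A i, ∃ z ∈ A j, x'⁻¹ * x = y⁻¹ * z := by
    intro i j hj x hx x' hx' hne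
    have hg : x'⁻¹ * x ≠ 1 := by
      intro hh
      rw [inv_mul_eq_one] at hh
      exact hne hh.symm
    have hc := h2 j _ hg
    rw [Finset.card_eq_one] at hc
    obtain ⟨⟨z, y⟩, hp⟩ := hc
    have hmem : (z, y) ∈ (A j ×ˢ T j).filter (fun p => p.2⁻¹ * p.1 = x'⁻¹ * x) := by
      rw [hp]; simp
    simp only [Finset.mem_filter, Finset.mem_product] at hmem
    obtain ⟨⟨hz, hy⟩, heq⟩ := hmem
    obtain ⟨l, hl, hyl⟩ := (hTmem j y).mp hy
    by_cases hli : l = i
    · subst hli
      exact ⟨y, hyl, z, hz, heq.symm⟩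
    · exfalso
      have hprod : x * z⁻¹ = x' * y⁻¹ := by
        have : x = x' * (y⁻¹ * z) := by rw [heq]; group
        rw [this]; group
      have hg2 : x * z⁻¹ ≠ 1 := by
        intro hh
        rw [mul_inv_eq_one] at hh
        subst hh
        exact (Finset.disjoint_left.mp (hdis i j (Ne.symm hj))) hx hz
      have hc2 := h1 i _ hg2
      rw [Finset.card_eq_one] at hc2
      obtain ⟨q, hq⟩ := hc2
      have m1 : (x, z) ∈ (A i ×ˢ T i).filter (fun p => p.1 * p.2⁻¹ = x * z⁻¹) := by
        simp only [Finset.mem_filter, Finset.mem_product, and_true]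
        exact ⟨hx, (hTmem i z).mpr ⟨j, hj, hz⟩⟩
      have m2 : (x', y) ∈ (A i ×ˢ T i).filter (fun p => p.1 * p.2⁻¹ = x * z⁻¹) := by
        simp only [Finset.mem_filter, Finset.mem_product]
        exact ⟨⟨hx', (hTmem i y).mpr ⟨l, hli, hyl⟩⟩, hprod.symm⟩
      rw [hq, Finset.mem_singleton] at m1 m2
      have := m1.trans m2.symm
      exact hne (Prod.ext_iff.mp this).1
  set i0 : Fin m := ⟨0, by omega⟩ with hi0
  set j1 : Fin m := ⟨1, by omega⟩ with hj1
  set j2 : Fin m := ⟨2, by omega⟩ with hj2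
  have hne1 : j1 ≠ i0 := by simp [hi0, hj1]
  have hne2 : j2 ≠ i0 := by simp [hi0, hj2]
  have hne12 : j1 ≠ j2 := by simp [hj1, hj2]
  have hc0 : 1 < (A i0).card := by rw [hcard]; omega
  obtain ⟨x, hx, x', hx', hxx⟩ := Finset.one_lt_card.mp hc0
  obtain ⟨u1, hu1, w1, hw1, e1⟩ := key i0 j1 hne1 x' hx' x hx (Ne.symm hxx)
  obtain ⟨u2, hu2, w2, hw2, e2⟩ := key i0 j2 hne2 x' hx' x hx (Ne.symm hxx)
  have hg : x'⁻¹ * x ≠ 1 := by
    intro hh
    rw [inv_mul_eq_one] at hh
    exact hxx hh.symm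
  have hc := h2 i0 _ hg
  rw [Finset.card_eq_one] at hc
  obtain ⟨q, hq⟩ := hc
  have m1 : (u1, w1) ∈ (A i0 ×ˢ T i0).filter (fun p => p.2⁻¹ * p.1 = x'⁻¹ * x) := by
    simp only [Finset.mem_filter, Finset.mem_product]
    refine ⟨⟨hu1, (hTmem i0 w1).mpr ⟨j1, hne1, hw1⟩⟩, ?_⟩
    have := congrArg (·⁻¹) e1
    simpa [_root_.mul_inv_rev] using this.symm
  have m2 : (u2, w2) ∈ (A i0 ×ˢ T i0).filter (fun p => p.2⁻¹ * p.1 = x'⁻¹ * x) := by
    simp only [Finset.mem_filter, Finset.mem_product]
    refine ⟨⟨hu2, (hTmem i0 w2).mpr ⟨j2, hne2, hw2⟩⟩, ?_⟩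
    have := congrArg (·⁻¹) e2
    simpa [_root_.mul_inv_rev] using this.symm
  rw [hq, Finset.mem_singleton] at m1 m2
  have hww : w1 = w2 := (Prod.ext_iff.mp (m1.trans m2.symm)).2
  rw [hww] at hw1
  exact (Finset.disjoint_left.mp (hdis j1 j2 hne12)) hw1 hw2

end Pool.Agent.Results.MP_2fa8e1_co.NoSEDF
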